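import Pool.Agent.Q72.AL.StmG

/-! # Project AL, job ENUM: the enumeration of the ordinates -/

set_option autoImplicit false

open Complex Filter Topology Set
open H345 (Zo aa XX)

namespace Pool.Agent.Q238.AL

open Pool.Agent.Q72.AL SG

/-- there is a zero with ordinate `ord n` -/
theorem exists_zero_ord {n : ℕ} (hn : 1 ≤ n) :
    ∃ s : ℂ, riemannZeta s = 0 ∧ 0 < s.re ∧ s.re < 1 ∧ s.im = ord n := by
  have h1 := le_NZ_ord hn
  have hne : (ZS_finite (ord n)).toFinset.Nonempty := by
    by_contra h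
    rw [Finset.not_nonempty_iff_eq_empty] at h
    rw [NZ_eq, h, Finset.sum_empty] at h1
    omega
  obtain ⟨s, hs, hmax⟩ := (ZS_finite (ord n)).toFinset.exists_max_image (fun s => s.im) hne
  rw [Set.Finite.mem_toFinset] at hs
  refine ⟨s, hs.1, hs.2.1, hs.2.2.1, ?_⟩
  by_contra hlt
  have hlt' : s.im < ord n := lt_of_le_of_ne hs.2.2.2.2 hlt
  have h2 : NZ s.im = NZ (ord n) := by
    rw [NZ_eq, NZ_eq]
    congr 1
    ext z
    rw [Set.Finite.mem_toFinset, Set.Finite.mem_toFinset]
    constructor
    · rintro ⟨a1, a2, a3, a4, a5⟩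
      exact ⟨a1, a2, a3, a4, a5.trans hlt'.le⟩
    · intro hz
      have := hmax z ((ZS_finite (ord n)).mem_toFinset.2 hz)
      exact ⟨hz.1, hz.2.1, hz.2.2.1, hz.2.2.2.1, this⟩
  have h3 := (ord_le_iff hn s.im).2 (by rw [h2]; exact h1)
  linarith

theorem half_add_re (t : ℝ) : ((1 / 2 + (t : ℂ) * I : ℂ)).re = 1 / 2 := by
  simp

theorem half_add_im (t : ℝ) : ((1 / 2 + (t : ℂ) * I : ℂ)).im = t := by
  simp

theorem enum : J_ENUM := by
  intro RH
  refine ⟨fun n hn => ?_, fun t ht h0 => ?_, fun t ht h0 hn hd => ?_⟩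
  · obtain ⟨s, h1, h2, h3, h4⟩ := exists_zero_ord hn
    have hre : s.re = 1 / 2 := by
      refine RH s h1 ?_ ?_
      · rintro ⟨k, hk⟩
        rw [hk] at h2
        simp at h2
        have : (0 : ℝ) ≤ k := Nat.cast_nonneg k
        linarith
      · intro h
        rw [h] at h3
        simp at h3
    have hs : s = 1 / 2 + ((ord n : ℝ) : ℂ) * I := by
      apply Complex.ext
      · rw [half_add_re, hre]
      · rw [half_add_im, h4]
    show riemannZeta (1 / 2 + ((ord n : ℝ) : ℂ) * I) = 0
    rw [← hs]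
    exact h1
  · set s : ℂ := 1 / 2 + (t : ℂ) * I with hs
    have hre : s.re = 1 / 2 := half_add_re t
    have him : s.im = t := half_add_im t
    have hz : riemannZeta s = 0 := ht
    have hj : ∀ t', t' < t → NZ t' + zmult s ≤ NZ t := fun t' ht' => by
      have := jump_one hz (by rw [hre]; norm_num) (by rw [hre]; norm_num) (by rw [him]; exact h0) t' (by rw [him]; exact ht')
      rwa [him] at this
    have hp := zmult_pos (by rw [him]; exact h0 : 0 < s.im) hz
    have h1 : 1 ≤ NZ t := by
      have := hj 0 h0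
      omega
    refine ⟨NZ t, h1, le_antisymm ((ord_le_iff h1 t).2 le_rfl) ?_⟩
    by_contra hlt
    push Not at hlt
    have h2 := hj _ hlt
    have h3 := le_NZ_ord h1
    omega
  · set s : ℂ := 1 / 2 + (t : ℂ) * I with hs
    have hre : s.re = 1 / 2 := half_add_re t
    have him : s.im = t := half_add_im t
    have hz : riemannZeta s = 0 := ht
    have hm := zmult_two (by rw [him]; exact h0 : 0 < s.im) hz hd
    obtain ⟨n, hn1, hn2, hn3⟩ := consecutive_of_jump h0 (fun t' ht' => by
      have := jump_one hz (by rw [hre]; norm_num) (by rw [hre]; norm_num) (by rw [him]; exact h0) t' (by rw [him]; exact ht')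
      rw [him] at this
      omega)
    have h5 := ord_mono hn1 (Nat.le_succ n)
    have h6 : ord n = t := le_antisymm (h5.trans hn3) hn2
    exact hn n hn1 h6 (le_antisymm hn3 (hn2.trans h5))

end Pool.Agent.Q238.AL
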